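import Pool.Agent.H1.ED.T1
import Pool.Agent.H1.ED.Tp

/-! # MP_2de571_an: one measurement tells an ellipse whose confocal double lies in the domain apart from every inclusion which does not contain its focal segment

Definitions used by the statement: `IsTest`, `Sob`, `cond`, `SameTrace` (in `Pool/Agent/H12/MDM/PDE.lean`) and `SolvesC` (in `Pool/Agent/H1/ED/P0.lean`).
-/

namespace H1OldEvI

open MD12 ED1 MeasureTheory Set Filter Topology
open scoped MeasureTheory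

/-- the open ellipse with foci `f₁`, `f₂` and major axis `2 a` -/
def ellipse (f₁ f₂ : ℂ) (a : ℝ) : Set ℂ := {z | ‖z - f₁‖ + ‖z - f₂‖ < 2 * a}

/-- the closed ellipse with foci `f₁`, `f₂` and major axis `2 a` -/
def cellipse (f₁ f₂ : ℂ) (a : ℝ) : Set ℂ := {z | ‖z - f₁‖ + ‖z - f₂‖ ≤ 2 * a}

theorem result (Ω : Set ℂ) (hΩo : IsOpen Ω) (hΩb : Bornology.IsBounded Ω) (hΩc : IsConnected Ω)
    (hσ : μH[1] (frontier Ω) < ⊤) (k : ℝ) (hk : 0 < k) (hk1 : k ≠ 1)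
    (f₁ f₂ : ℂ) (a : ℝ) (hf : f₁ ≠ f₂) (ha : ‖f₁ - f₂‖ < 2 * a)
    (hD : cellipse f₁ f₂ (4 * a ^ 2 / ‖f₁ - f₂‖ - ‖f₁ - f₂‖ / 2) ⊆ Ω)
    (K : Set ℂ) (hK : IsCompact K) (hKΩ : K ⊆ Ω) (hseg : ¬ segment ℝ f₁ f₂ ⊆ K)
    (htop : IsPreconnected (K ∪ segment ℝ f₁ f₂)ᶜ ∨ Convex ℝ K)
    (σ : ℂ → ℝ) (hm : Measurable σ) (hM : ∃ M, ∀ z, |σ z| ≤ M) (hσ1 : ∀ z, z ∉ K → σ z = 1)
    (g : ℂ → ℝ) (hg : MemLp g 2 (μH[1].restrict (frontier Ω)))
    (hg0 : ¬ g =ᵐ[μH[1].restrict (frontier Ω)] 0) (u₁ u₂ : ℂ → ℝ) (G₁ G₂ : ℂ → ℂ)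
    (h₁ : SolvesC Ω (cond k (ellipse f₁ f₂ a)) g u₁ G₁) (h₂ : SolvesC Ω σ g u₂ G₂) :
    ¬ SameTrace Ω u₁ u₂ G₁ G₂ := by
  intro ht
  obtain ⟨z₀, b, x, hb, hx, e1, e2, e3, e4⟩ := exists_par hf ha
  obtain ⟨M, hM'⟩ := hM
  have hlv : ∀ z, lv z₀ b z = ‖z - f₁‖ + ‖z - f₂‖ := fun z => by
    rw [e1, e2]
    rfl
  have hell : ellipse f₁ f₂ a = De z₀ b x := by
    unfold ellipse De
    ext z
    simp only [Set.mem_setOf_eq, hlv, e3]
  have hcell : {z | lv z₀ b z ≤ lx b (2 * x)} ⊆ Ω := by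
    intro z hz
    apply hD
    unfold cellipse
    have h1 : lv z₀ b z ≤ lx b (2 * x) := hz
    rw [hlv, e4] at h1
    exact h1
  have hSg : Sg z₀ b = segment ℝ f₁ f₂ := by
    unfold Sg
    rw [segment_symm, e1, e2]
  rw [hell] at h₁
  refine hg0 (main1 hΩo hΩb hΩc.isPreconnected hσ hk hk1 hb hx hcell hK hKΩ hm hM' hσ1 ?_ hg h₁ h₂ ht)
  rcases htop with htop | htop
  · rw [← hSg] at htop hseg
    obtain ⟨p, hp, hpK⟩ := Set.not_subset.1 hseg
    refine ⟨p, hp, hpK, (K ∪ Sg z₀ b)ᶜ, ?_, htop, ?_, ?_, ?_, ?_⟩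
    · refine (hK.union ?_).isClosed.isOpen_compl
      unfold Sg
      rw [segment_eq_image]
      exact isCompact_Icc.image (by fun_prop)
    · rw [Set.disjoint_left]
      exact fun z hz hz' => hz (Or.inl hz')
    · rw [Set.disjoint_left]
      exact fun z hz hz' => hz (Or.inr hz')
    · intro R
      have hc : IsCompact (K ∪ Sg z₀ b) := by
        refine hK.union ?_
        unfold Sg
        rw [segment_eq_image]
        exact isCompact_Icc.image (by fun_prop)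
      obtain ⟨B, hB⟩ := hc.isBounded.exists_norm_le
      refine ⟨((|B| + |R| + 1 : ℝ) : ℂ), fun h => ?_, ?_⟩
      · have h1 := hB _ h
        rw [Complex.norm_real, Real.norm_eq_abs, abs_of_pos (by positivity)] at h1
        linarith [le_abs_self B, abs_nonneg R]
      · rw [Complex.norm_real, Real.norm_eq_abs, abs_of_pos (by positivity)]
        linarith [le_abs_self R, abs_nonneg B]
    · filter_upwards [hK.isClosed.isOpen_compl.mem_nhds hpK] with z hz hzS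
      exact fun h => h.elim hz hzS
  · refine Tp hb hK htop ?_
    by_contra hcon
    push Not at hcon
    apply hseg
    rw [e1, e2]
    exact htop.segment_subset hcon.1 hcon.2

end H1OldEvI
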