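import Pool.Agent.H1.EX.T6
import Pool.Agent.H1.EX.Xi
import Pool.Agent.H1.AK.Kd
import Pool.Agent.H1.LD.T8
import Pool.Agent.H1.NV.T9

/-! # MP_2de571_an, class (a): ellipses and one measurement: conductivity close to one; nearly circular ellipses; ellipses close to
each other; ellipses far from each other; dependence on the conductivity

Definitions used by the statement: `IsTest`, `Sob`, `cond`, `Solves`, `SameTrace` (in `Pool/Agent/H12/MDM/PDE.lean`).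
-/

namespace H1OldWCv5

open MD12 ED1 EW1 EX1 MeasureTheory Set Filter Topology
open scoped MeasureTheory

/-- the open ellipse with center `c`, half axes `α` (in the direction `e^(iθ)`) and `β` -/
def ellipse (c : ℂ) (α β θ : ℝ) : Set ℂ :=
  {z | ∃ x y : ℝ, x ^ 2 + y ^ 2 < 1 ∧ z = c + Complex.exp (θ * Complex.I) * (α * x + β * y * Complex.I)}

/-- the closed ellipse -/
def cellipse (c : ℂ) (α β θ : ℝ) : Set ℂ :=
  {z | ∃ x y : ℝ, x ^ 2 + y ^ 2 ≤ 1 ∧ z = c + Complex.exp (θ * Complex.I) * (α * x + β * y * Complex.I)}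

/-- an ellipse (a disk if `β = α`) with closure in `Ω` -/
def Adm (Ω : Set ℂ) (c : ℂ) (α β θ : ℝ) : Prop := 0 < β ∧ β ≤ α ∧ cellipse c α β θ ⊆ Ω

/-- the gradient of a function, as a complex number -/
noncomputable def grad (φ : ℂ → ℝ) (z : ℂ) : ℂ := (fderiv ℝ φ z 1 : ℂ) + (fderiv ℝ φ z Complex.I : ℂ) * Complex.I

/-- the gradients of smooth functions are dense in the gradients of the Sobolev functions of `Ω` -/
def SmoothDense (Ω : Set ℂ) : Prop :=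
  ∀ (u : ℂ → ℝ) (G : ℂ → ℂ), Sob Ω u G → ∀ ε : ℝ, 0 < ε → ∃ φ : ℂ → ℝ, IsTest φ ∧ ∫ z in Ω, ‖G z - grad φ z‖ ^ 2 < ε

/-- Poincaré inequality for `Ω` -/
def Poincare (Ω : Set ℂ) : Prop :=
  ∃ C : ℝ, ∀ (u : ℂ → ℝ) (G : ℂ → ℂ), Sob Ω u G → ∃ c : ℝ, ∫ z in Ω, (u z - c) ^ 2 ≤ C * ∫ z in Ω, ‖G z‖ ^ 2

/-- with conductivity `k` and Neumann data `g` the inclusions `D₁`, `D₂` give the same boundary values -/
def SameData (Ω D₁ D₂ : Set ℂ) (g : ℂ → ℝ) (k : ℝ) : Prop :=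
  ∃ (u₁ u₂ : ℂ → ℝ) (G₁ G₂ : ℂ → ℂ), Solves Ω k D₁ g u₁ G₁ ∧ Solves Ω k D₂ g u₂ G₂ ∧ SameTrace Ω u₁ u₂ G₁ G₂

private theorem same_iff {Ω D₁ D₂ : Set ℂ} {g : ℂ → ℝ} {k : ℝ} : SameData Ω D₁ D₂ g k ↔ AK1.Same Ω D₁ D₂ g k := by
  constructor
  · rintro ⟨u₁, u₂, G₁, G₂, h₁, h₂, h₃⟩
    exact ⟨u₁, u₂, G₁, G₂, ⟨h₁.sob, h₁.eq⟩, ⟨h₂.sob, h₂.eq⟩, h₃⟩
  · rintro ⟨u₁, u₂, G₁, G₂, h₁, h₂, h₃⟩
    exact ⟨u₁, u₂, G₁, G₂, ⟨h₁.sob, h₁.eq⟩, ⟨h₂.sob, h₂.eq⟩, h₃⟩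

/-- for the conductivity `k` (and in every domain) the ellipses (disks included) with axis ratio at least `q` have global uniqueness
with one measurement -/
def GlobalUniqueness (q k : ℝ) : Prop :=
  ∀ Ω : Set ℂ, IsOpen Ω → Bornology.IsBounded Ω → IsConnected Ω → μH[1] (frontier Ω) < ⊤ →
    ∀ (c₁ c₂ : ℂ) (α₁ β₁ θ₁ α₂ β₂ θ₂ : ℝ), Adm Ω c₁ α₁ β₁ θ₁ → Adm Ω c₂ α₂ β₂ θ₂ → q * α₁ ≤ β₁ → q * α₂ ≤ β₂ →
    ∀ g : ℂ → ℝ, MemLp g 2 (μH[1].restrict (frontier Ω)) → ¬ g =ᵐ[μH[1].restrict (frontier Ω)] 0 →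
    SameData Ω (ellipse c₁ α₁ β₁ θ₁) (ellipse c₂ α₂ β₂ θ₂) g k → ellipse c₁ α₁ β₁ θ₁ = ellipse c₂ α₂ β₂ θ₂

/-- for the conductivity `k` (and in every domain) two different ellipses (disks included) with axis ratio at least `q` whose centers and
half axes differ by at most `δ α₁` and whose directions differ by at most `δ` are distinguished by every measurement -/
def LocalUniqueness (q k δ : ℝ) : Prop :=
  ∀ Ω : Set ℂ, IsOpen Ω → Bornology.IsBounded Ω → IsConnected Ω → μH[1] (frontier Ω) < ⊤ →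
    ∀ (c₁ c₂ : ℂ) (α₁ β₁ θ₁ α₂ β₂ θ₂ : ℝ), Adm Ω c₁ α₁ β₁ θ₁ → Adm Ω c₂ α₂ β₂ θ₂ → q * α₁ ≤ β₁ → q * α₂ ≤ β₂ →
    ‖c₁ - c₂‖ ≤ δ * α₁ → |α₁ - α₂| ≤ δ * α₁ → |β₁ - β₂| ≤ δ * α₁ →
    ‖Complex.exp (2 * θ₁ * Complex.I) - Complex.exp (2 * θ₂ * Complex.I)‖ ≤ δ →
    ∀ g : ℂ → ℝ, MemLp g 2 (μH[1].restrict (frontier Ω)) → ¬ g =ᵐ[μH[1].restrict (frontier Ω)] 0 →
    SameData Ω (ellipse c₁ α₁ β₁ θ₁) (ellipse c₂ α₂ β₂ θ₂) g k → ellipse c₁ α₁ β₁ θ₁ = ellipse c₂ α₂ β₂ θ₂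

/-- the centers are far from each other compared with the eccentricities and with the difference of the sizes (the ellipses may overlap) -/
def Apart (c₁ : ℂ) (α₁ β₁ : ℝ) (c₂ : ℂ) (α₂ β₂ : ℝ) : Prop :=
  α₁ ^ 2 - β₁ ^ 2 + |(α₁ + β₁) ^ 2 - (α₂ + β₂) ^ 2| / 8 < ‖c₂ - c₁‖ * β₁ ∧
    α₂ ^ 2 - β₂ ^ 2 + |(α₁ + β₁) ^ 2 - (α₂ + β₂) ^ 2| / 8 < ‖c₂ - c₁‖ * β₂

private theorem ratio_le {q : ℝ} (hq : 0 < q) {α β : ℝ} (hβ : 0 < β) (hα : β ≤ α) (hqα : q * α ≤ β) :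
    (α - β) / (α + β) ≤ (1 - q) / (1 + q) := by
  rw [div_le_div_iff₀ (by linarith) (by linarith)]
  nlinarith

/-- from the parameters `(c, r, μ)` to the half axes -/
private theorem transfer {q k E : ℝ} (hq : 0 < q) (hE : (1 - q) / (1 + q) ≤ E)
    (hmain : ∀ Ω : Set ℂ, IsOpen Ω → Bornology.IsBounded Ω → IsPreconnected Ω → μH[1] (frontier Ω) < ⊤ →
      ∀ (c₁ : ℂ) (r₁ : ℝ) (μ₁ c₂ : ℂ) (r₂ : ℝ) (μ₂ : ℂ), 0 < r₁ → 0 < r₂ → ‖μ₁‖ ≤ E → ‖μ₂‖ ≤ E →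
      Kp c₁ r₁ μ₁ ⊆ Ω → Kp c₂ r₂ μ₂ ⊆ Ω →
      ∀ (g u₁ u₂ : ℂ → ℝ) (G₁ G₂ : ℂ → ℂ), MemLp g 2 (μH[1].restrict (frontier Ω)) →
      ¬ g =ᵐ[μH[1].restrict (frontier Ω)] 0 →
      SolvesC Ω (MD12.cond k (Dp c₁ r₁ μ₁ 1)) g u₁ G₁ → SolvesC Ω (MD12.cond k (Dp c₂ r₂ μ₂ 1)) g u₂ G₂ →
      SameTrace Ω u₁ u₂ G₁ G₂ → c₁ = c₂ ∧ r₁ = r₂ ∧ μ₁ = μ₂) : GlobalUniqueness q k := by
  intro Ω hΩo hΩb hΩc hσ c₁ c₂ α₁ β₁ θ₁ α₂ β₂ θ₂ hA₁ hA₂ hq₁ hq₂ g hg hg0 hs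
  obtain ⟨u₁, u₂, G₁, G₂, h₁, h₂, ht⟩ := hs
  obtain ⟨e1, e2, e3⟩ := ell_Dp c₁ hA₁.1 hA₁.2.1 θ₁
  obtain ⟨d1, d2, d3⟩ := ell_Dp c₂ hA₂.1 hA₂.2.1 θ₂
  have e1' : ellipse c₁ α₁ β₁ θ₁ = _ := e1
  have d1' : ellipse c₂ α₂ β₂ θ₂ = _ := d1
  rw [e1'] at h₁
  rw [d1'] at h₂
  obtain ⟨f1, f2, f3⟩ := hmain Ω hΩo hΩb hΩc.isPreconnected hσ _ _ _ _ _ _
    (by linarith [hA₁.1, hA₁.2.1]) (by linarith [hA₂.1, hA₂.2.1])
    (by rw [e3]; exact (ratio_le hq hA₁.1 hA₁.2.1 hq₁).trans hE) (by rw [d3]; exact (ratio_le hq hA₂.1 hA₂.2.1 hq₂).trans hE)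
    (by rw [← e2]; exact hA₁.2.2) (by rw [← d2]; exact hA₂.2.2) g u₁ u₂ G₁ G₂ hg hg0 ⟨h₁.sob, h₁.eq⟩ ⟨h₂.sob, h₂.eq⟩ ht
  rw [e1', d1', f1, f2, f3]

private theorem near {q : ℝ} (hq : 0 < q) : ∃ ε : ℝ, 0 < ε ∧ ∀ k : ℝ, 0 < k → k ≠ 1 → |k - 1| < ε → GlobalUniqueness q k := by
  have h1 : max 0 ((1 - q) / (1 + q)) < 1 := by
    refine max_lt one_pos ?_
    rw [div_lt_one (by linarith)]
    linarith
  obtain ⟨ε, hε, hmain⟩ := main5 (le_max_left _ _) h1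
  exact ⟨ε, hε, fun k hk hk1 hkε => transfer hq (le_max_right _ _) (hmain k hk hk1 hkε)⟩

private theorem round {κ : ℝ} (hκ : 1 < κ) : ∃ q : ℝ, 0 < q ∧ q < 1 ∧
    ∀ k : ℝ, 1 / κ ≤ k → k ≤ κ → k ≠ 1 → GlobalUniqueness q k := by
  have hL : (κ - 1) / (κ + 1) < 1 := by
    rw [div_lt_one (by linarith)]
    linarith
  obtain ⟨ε, hε, hε1, hmain⟩ := ND1.main6 hL
  refine ⟨(1 - ε) / (1 + ε), div_pos (by linarith) (by linarith), ?_, ?_⟩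
  · rw [div_lt_one (by linarith)]
    linarith
  · intro k hk₁ hk₂ hk1
    have hk : 0 < k := lt_of_lt_of_le (by positivity) hk₁
    have hkκ : 1 ≤ κ * k := by
      have := mul_le_mul_of_nonneg_left hk₁ (by linarith : (0 : ℝ) ≤ κ)
      rwa [mul_one_div_cancel (by linarith)] at this
    have hE : (1 - (1 - ε) / (1 + ε)) / (1 + (1 - ε) / (1 + ε)) ≤ ε := by
      have : (1 - (1 - ε) / (1 + ε)) / (1 + (1 - ε) / (1 + ε)) = ε := by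
        have h2 : (1 + ε : ℝ) ≠ 0 := by linarith
        field_simp
        ring
      exact this.le
    refine transfer (div_pos (by linarith) (by linarith)) hE (hmain k hk hk1 ?_)
    rw [abs_div, abs_of_pos (by linarith : (0 : ℝ) < k + 1), div_le_div_iff₀ (by linarith) (by linarith)]
    rcases abs_cases (k - 1) with ⟨h, -⟩ | ⟨h, -⟩ <;> rw [h] <;> nlinarith

private theorem kL {κ k : ℝ} (hκ : 1 < κ) (hk₁ : 1 / κ ≤ k) (hk₂ : k ≤ κ) : 0 < k ∧ |(k - 1) / (k + 1)| ≤ (κ - 1) / (κ + 1) := by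
  have hk : 0 < k := lt_of_lt_of_le (by positivity) hk₁
  have hkκ : 1 ≤ κ * k := by
    have := mul_le_mul_of_nonneg_left hk₁ (by linarith : (0 : ℝ) ≤ κ)
    rwa [mul_one_div_cancel (by linarith)] at this
  refine ⟨hk, ?_⟩
  rw [abs_div, abs_of_pos (by linarith : (0 : ℝ) < k + 1), div_le_div_iff₀ (by linarith) (by linarith)]
  rcases abs_cases (k - 1) with ⟨h, -⟩ | ⟨h, -⟩ <;> rw [h] <;> nlinarith

private theorem close {κ q : ℝ} (hκ : 1 < κ) (hq : 0 < q) : ∃ δ : ℝ, 0 < δ ∧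
    ∀ k : ℝ, 1 / κ ≤ k → k ≤ κ → k ≠ 1 → LocalUniqueness q k δ := by
  have hL : (κ - 1) / (κ + 1) < 1 := by
    rw [div_lt_one (by linarith)]
    linarith
  have h1 : max 0 ((1 - q) / (1 + q)) < 1 := by
    refine max_lt one_pos ?_
    rw [div_lt_one (by linarith)]
    linarith
  obtain ⟨δ, hδ, hmain⟩ := LD1.main7 hL (le_max_left 0 ((1 - q) / (1 + q))) h1
  refine ⟨min (1 / 2) (δ / 9), by positivity, ?_⟩
  intro k hk₁ hk₂ hk1 Ω hΩo hΩb hΩc hσ c₁ c₂ α₁ β₁ θ₁ α₂ β₂ θ₂ hA₁ hA₂ hq₁ hq₂ hc hα hβ hθ g hg hg0 hs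
  obtain ⟨hk, hkL⟩ := kL hκ hk₁ hk₂
  obtain ⟨u₁, u₂, G₁, G₂, h₁, h₂, ht⟩ := hs
  obtain ⟨e1, e2, e3⟩ := ell_Dp c₁ hA₁.1 hA₁.2.1 θ₁
  obtain ⟨d1, d2, d3⟩ := ell_Dp c₂ hA₂.1 hA₂.2.1 θ₂
  have e1' : ellipse c₁ α₁ β₁ θ₁ = _ := e1
  have d1' : ellipse c₂ α₂ β₂ θ₂ = _ := d1
  rw [e1'] at h₁
  rw [d1'] at h₂
  have hα₁ : 0 < α₁ := hA₁.1.trans_le hA₁.2.1
  have hα₂ : 0 < α₂ := hA₂.1.trans_le hA₂.2.1
  have hβ₁ := hA₁.1
  have hβ₂ := hA₂.1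
  obtain ⟨η, hη⟩ : ∃ η : ℝ, η = min (1 / 2) (δ / 9) := ⟨_, rfl⟩
  rw [← hη] at hc hα hβ hθ
  have hη2 : η ≤ 1 / 2 := by rw [hη]; exact min_le_left _ _
  have hη9 : 9 * η ≤ δ := by
    have : η ≤ δ / 9 := by rw [hη]; exact min_le_right _ _
    linarith
  have hη0 : 0 < η := by rw [hη]; positivity
  have hα' := abs_le.1 hα
  have hβ' := abs_le.1 hβ
  have hαr : η * α₁ ≤ 2 * η * ((α₁ + β₁) / 2) := by nlinarith
  have hδr : 2 * η * ((α₁ + β₁) / 2) ≤ δ * ((α₁ + β₁) / 2) := by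
    refine mul_le_mul_of_nonneg_right (by linarith) (by linarith)
  obtain ⟨f1, f2, f3⟩ := hmain k hk hk1 hkL Ω hΩo hΩb hΩc.isPreconnected hσ c₁ ((α₁ + β₁) / 2)
    (((α₁ - β₁) / (α₁ + β₁) : ℝ) * Complex.exp (2 * θ₁ * Complex.I)) c₂ ((α₂ + β₂) / 2)
    (((α₂ - β₂) / (α₂ + β₂) : ℝ) * Complex.exp (2 * θ₂ * Complex.I)) (by linarith) (by linarith)
    (by rw [e3]; exact (ratio_le hq hA₁.1 hA₁.2.1 hq₁).trans (le_max_right _ _))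
    (by rw [d3]; exact (ratio_le hq hA₂.1 hA₂.2.1 hq₂).trans (le_max_right _ _))
    (by rw [norm_sub_rev]; exact hc.trans (hαr.trans hδr))
    (by
      rw [abs_le]
      constructor <;> nlinarith)
    (by
      obtain ⟨s₁, hs₁⟩ : ∃ s : ℝ, s = (α₁ - β₁) / (α₁ + β₁) := ⟨_, rfl⟩
      obtain ⟨s₂, hs₂⟩ : ∃ s : ℝ, s = (α₂ - β₂) / (α₂ + β₂) := ⟨_, rfl⟩
      rw [← hs₁, ← hs₂]
      have hs1 : |s₁| ≤ 1 := by
        rw [hs₁, abs_div, abs_of_nonneg (by linarith [hA₁.2.1] : (0 : ℝ) ≤ α₁ - β₁), abs_of_pos (by linarith : (0 : ℝ) < α₁ + β₁),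
          div_le_one (by linarith)]
        linarith
      have hs12 : |s₁ - s₂| ≤ 8 * η := by
        have e : s₁ - s₂ = 2 * (α₁ * (β₂ - β₁) + β₁ * (α₁ - α₂)) / ((α₁ + β₁) * (α₂ + β₂)) := by
          rw [hs₁, hs₂, div_sub_div _ _ (by linarith) (by linarith)]
          congr 1
          ring
        rw [e, abs_div, abs_of_pos (by positivity : (0 : ℝ) < (α₁ + β₁) * (α₂ + β₂)), div_le_iff₀ (by positivity)]
        have hnum : |2 * (α₁ * (β₂ - β₁) + β₁ * (α₁ - α₂))| ≤ 4 * η * α₁ ^ 2 := by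
          rw [abs_mul, abs_of_pos (by norm_num : (0 : ℝ) < 2)]
          have t1 : |α₁ * (β₂ - β₁)| ≤ α₁ * (η * α₁) := by
            rw [abs_mul, abs_of_pos hα₁, abs_sub_comm]
            gcongr
          have t2 : |β₁ * (α₁ - α₂)| ≤ α₁ * (η * α₁) := by
            rw [abs_mul, abs_of_pos hβ₁]
            exact mul_le_mul hA₁.2.1 hα (abs_nonneg _) hα₁.le
          have := (abs_add_le (α₁ * (β₂ - β₁)) (β₁ * (α₁ - α₂))).trans (add_le_add t1 t2)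
          nlinarith
        refine hnum.trans ?_
        have hα2 : α₁ / 2 ≤ α₂ := by nlinarith
        have t3 : α₁ * (α₁ / 2) ≤ (α₁ + β₁) * (α₂ + β₂) := by
          refine mul_le_mul (by linarith) (by linarith) (by linarith) (by linarith)
        nlinarith
      have e : (s₁ : ℂ) * Complex.exp (2 * θ₁ * Complex.I) - s₂ * Complex.exp (2 * θ₂ * Complex.I) =
          s₁ * (Complex.exp (2 * θ₁ * Complex.I) - Complex.exp (2 * θ₂ * Complex.I)) +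
            ((s₁ - s₂ : ℝ) : ℂ) * Complex.exp (2 * θ₂ * Complex.I) := by
        push_cast
        ring
      rw [e]
      refine (norm_add_le _ _).trans ?_
      rw [norm_mul, norm_mul, Complex.norm_real, Complex.norm_real, Real.norm_eq_abs, Real.norm_eq_abs]
      have e4 : ‖Complex.exp (2 * θ₂ * Complex.I)‖ = 1 := by
        have : (2 * θ₂ * Complex.I : ℂ) = ((2 * θ₂ : ℝ) : ℂ) * Complex.I := by push_cast; ring
        rw [this, Complex.norm_exp_ofReal_mul_I]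
      rw [e4, mul_one]
      have t4 : |s₁| * ‖Complex.exp (2 * θ₁ * Complex.I) - Complex.exp (2 * θ₂ * Complex.I)‖ ≤ 1 * η :=
        mul_le_mul hs1 hθ (norm_nonneg _) zero_le_one
      linarith)
    (by rw [← e2]; exact hA₁.2.2) (by rw [← d2]; exact hA₂.2.2) g u₁ u₂ G₁ G₂ hg hg0 ⟨h₁.sob, h₁.eq⟩ ⟨h₂.sob, h₂.eq⟩ ht
  rw [e1', d1', f1, f2, f3]

/-- the vector field `a + b z + c z²` points out of the ellipse (`ε = 1`) or into it (`ε = -1`) at every point of its boundary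
(`e^(iθ) (β x + α y i)` is an outer normal) -/
def Points (ε : ℝ) (a b c c₀ : ℂ) (α β θ : ℝ) : Prop :=
  ∀ (x y : ℝ) (z : ℂ), x ^ 2 + y ^ 2 = 1 → z = c₀ + Complex.exp (θ * Complex.I) * (α * x + β * y * Complex.I) →
    0 < ε * ((a + b * z + c * z ^ 2) * (starRingEnd ℂ) (Complex.exp (θ * Complex.I) * (β * x + α * y * Complex.I))).re

private theorem cond_r {α β d X : ℝ} (hβ : 0 < β) (hα : β ≤ α) (h : α ^ 2 - β ^ 2 + |X| / 8 < d * β) :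
    4 * ((α + β) / 2) * ((α - β) / (α + β)) + |X / 4| / (2 * ((α + β) / 2)) < d * (1 - (α - β) / (α + β)) := by
  have hs : 0 < α + β := by linarith
  have e1 : 4 * ((α + β) / 2) * ((α - β) / (α + β)) + |X / 4| / (2 * ((α + β) / 2)) = 2 * (α ^ 2 - β ^ 2 + |X| / 8) / (α + β) := by
    rw [abs_div, abs_of_pos (by norm_num : (0 : ℝ) < 4)]
    field_simp
    ring
  have e2 : d * (1 - (α - β) / (α + β)) = 2 * (d * β) / (α + β) := by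
    field_simp
    ring
  rw [e1, e2]
  gcongr

private theorem pts {ε : ℝ} {a b c c₀ : ℂ} {α β θ : ℝ} (hβ : 0 < β) (hα : β ≤ α) : Points ε a b c c₀ α β θ ↔
    ∀ w : ℂ, ‖w‖ = 1 → 0 < ε * (NV1.qp a b c (c₀ + ((α + β) / 2 : ℝ) * (w + ((α - β) / (α + β) : ℝ) *
      Complex.exp (2 * θ * Complex.I) * w⁻¹)) * (starRingEnd ℂ) (w - ((α - β) / (α + β) : ℝ) *
      Complex.exp (2 * θ * Complex.I) * w⁻¹)).re := by
  have hs : 0 < α + β := by linarith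
  have hsc : (α : ℂ) + β ≠ 0 := by exact_mod_cast hs.ne'
  have he : Complex.exp (θ * Complex.I) ≠ 0 := Complex.exp_ne_zero _
  have he2 : Complex.exp (2 * θ * Complex.I) = Complex.exp (θ * Complex.I) ^ 2 := by
    rw [← Complex.exp_nat_mul]
    congr 1
    push_cast
    ring
  have hen : ‖Complex.exp (θ * Complex.I)‖ = 1 := Complex.norm_exp_ofReal_mul_I θ
  -- the point and the normal
  have key : ∀ x y : ℝ, x ^ 2 + y ^ 2 = 1 → ∀ w : ℂ, w = Complex.exp (θ * Complex.I) * (x + y * Complex.I) →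
      c₀ + ((α + β) / 2 : ℝ) * (w + ((α - β) / (α + β) : ℝ) * Complex.exp (2 * θ * Complex.I) * w⁻¹) =
        c₀ + Complex.exp (θ * Complex.I) * (α * x + β * y * Complex.I) ∧
      w - ((α - β) / (α + β) : ℝ) * Complex.exp (2 * θ * Complex.I) * w⁻¹ =
        ((2 / (α + β) : ℝ) : ℂ) * (Complex.exp (θ * Complex.I) * (β * x + α * y * Complex.I)) := by
    intro x y hxy w hw
    have hxy' : (x : ℂ) ^ 2 + (y : ℂ) ^ 2 = 1 := by exact_mod_cast hxy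
    have hprod : ((x : ℂ) + y * Complex.I) * (x - y * Complex.I) = 1 := by
      have : ((x : ℂ) + y * Complex.I) * (x - y * Complex.I) = x ^ 2 - y ^ 2 * Complex.I ^ 2 := by ring
      rw [this, Complex.I_sq]
      linear_combination hxy'
    have hinv : Complex.exp (2 * θ * Complex.I) * w⁻¹ = Complex.exp (θ * Complex.I) * (x - y * Complex.I) := by
      have h1 : ((x : ℂ) + y * Complex.I)⁻¹ = x - y * Complex.I := inv_eq_of_mul_eq_one_right hprod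
      rw [hw, he2, mul_inv, h1]
      field_simp
    constructor
    · rw [mul_assoc (((α - β) / (α + β) : ℝ) : ℂ), hinv, hw]
      push_cast
      field_simp
      ring
    · rw [mul_assoc (((α - β) / (α + β) : ℝ) : ℂ), hinv, hw]
      push_cast
      field_simp
      ring
  have hfac : 0 < 2 / (α + β) := by positivity
  have hre : ∀ (q ν : ℂ), (q * (starRingEnd ℂ) (((2 / (α + β) : ℝ) : ℂ) * ν)).re = 2 / (α + β) * (q * (starRingEnd ℂ) ν).re := by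
    intro q ν
    rw [map_mul, Complex.conj_ofReal, mul_left_comm, Complex.re_ofReal_mul]
  constructor
  · intro h w hw
    obtain ⟨v, hv⟩ : ∃ v : ℂ, v = (Complex.exp (θ * Complex.I))⁻¹ * w := ⟨_, rfl⟩
    have hvn : ‖v‖ = 1 := by rw [hv, norm_mul, norm_inv, hen, hw]; norm_num
    have hxy : v.re ^ 2 + v.im ^ 2 = 1 := by
      have := Complex.sq_norm v
      rw [hvn, Complex.normSq_apply] at this
      nlinarith
    have hwv : w = Complex.exp (θ * Complex.I) * (v.re + v.im * Complex.I) := by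
      rw [Complex.re_add_im, hv, mul_inv_cancel_left₀ he]
    obtain ⟨k1, k2⟩ := key v.re v.im hxy w hwv
    rw [k1, k2, hre]
    have h3 := h v.re v.im _ hxy rfl
    have h4 := mul_pos hfac h3
    unfold NV1.qp
    linarith
  · intro h x y z hxy hz
    have hwn : ‖Complex.exp (θ * Complex.I) * ((x : ℂ) + y * Complex.I)‖ = 1 := by
      rw [norm_mul, hen, one_mul, Complex.norm_def, Complex.normSq_add_mul_I, hxy, Real.sqrt_one]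
    obtain ⟨k1, k2⟩ := key x y hxy _ rfl
    have h3 := h _ hwn
    rw [k1, k2, hre, ← hz] at h3
    unfold NV1.qp at h3
    have h4 : 0 < 2 / (α + β) * (ε * ((a + b * z + c * z ^ 2) *
        (starRingEnd ℂ) (Complex.exp (θ * Complex.I) * (β * x + α * y * Complex.I))).re) := by linarith
    exact (mul_pos_iff_of_pos_left hfac).1 h4

/-- ellipses which are far apart: a vector field exists -/
private theorem apart_pts {c₁ c₂ : ℂ} {α₁ β₁ θ₁ α₂ β₂ θ₂ : ℝ} (hβ₁ : 0 < β₁) (hα₁ : β₁ ≤ α₁) (hβ₂ : 0 < β₂) (hα₂ : β₂ ≤ α₂)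
    (hap : Apart c₁ α₁ β₁ c₂ α₂ β₂) : ∃ a b c : ℂ, Points 1 a b c c₁ α₁ β₁ θ₁ ∧ Points (-1) a b c c₂ α₂ β₂ θ₂ := by
  obtain ⟨-, -, e3⟩ := ell_Dp c₁ hβ₁ hα₁ θ₁
  obtain ⟨-, -, d3⟩ := ell_Dp c₂ hβ₂ hα₂ θ₂
  have hn₁ : ‖(((α₁ - β₁) / (α₁ + β₁) : ℝ) : ℂ) * Complex.exp (2 * θ₁ * Complex.I)‖ < 1 := by
    rw [e3, div_lt_one (by linarith)]
    linarith
  have hn₂ : ‖(((α₂ - β₂) / (α₂ + β₂) : ℝ) : ℂ) * Complex.exp (2 * θ₂ * Complex.I)‖ < 1 := by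
    rw [d3, div_lt_one (by linarith)]
    linarith
  have eX : ((α₁ + β₁) / 2) ^ 2 - ((α₂ + β₂) / 2) ^ 2 = ((α₁ + β₁) ^ 2 - (α₂ + β₂) ^ 2) / 4 := by ring
  obtain ⟨a, b, c, q₁, q₂⟩ := NV1.Tpos (c₁ := c₁) (c₂ := c₂) (r₁ := (α₁ + β₁) / 2) (r₂ := (α₂ + β₂) / 2) (by linarith) (by linarith)
    hn₁ hn₂ (by rw [e3, eX]; exact cond_r hβ₁ hα₁ hap.1) (by rw [d3, eX]; exact cond_r hβ₂ hα₂ hap.2)
  exact ⟨a, b, c, (pts hβ₁ hα₁).2 fun w hw => by rw [one_mul]; exact q₁ w hw,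
    (pts hβ₂ hα₂).2 fun w hw => by have := q₂ w hw; linarith⟩

private theorem far {k : ℝ} (hk : 0 < k) (hk1 : k ≠ 1) {Ω : Set ℂ} (hΩo : IsOpen Ω) (hΩb : Bornology.IsBounded Ω)
    (hΩc : IsConnected Ω) (hσ : μH[1] (frontier Ω) < ⊤) {c₁ c₂ : ℂ} {α₁ β₁ θ₁ α₂ β₂ θ₂ : ℝ} (hA₁ : Adm Ω c₁ α₁ β₁ θ₁)
    (hA₂ : Adm Ω c₂ α₂ β₂ θ₂) (hq : ∃ a b c : ℂ, Points 1 a b c c₁ α₁ β₁ θ₁ ∧ Points (-1) a b c c₂ α₂ β₂ θ₂)
    {g : ℂ → ℝ} (hg : MemLp g 2 (μH[1].restrict (frontier Ω))) (hg0 : ¬ g =ᵐ[μH[1].restrict (frontier Ω)] 0) :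
    ¬ SameData Ω (ellipse c₁ α₁ β₁ θ₁) (ellipse c₂ α₂ β₂ θ₂) g k := by
  rintro ⟨u₁, u₂, G₁, G₂, h₁, h₂, ht⟩
  obtain ⟨e1, e2, e3⟩ := ell_Dp c₁ hA₁.1 hA₁.2.1 θ₁
  obtain ⟨d1, d2, d3⟩ := ell_Dp c₂ hA₂.1 hA₂.2.1 θ₂
  have e1' : ellipse c₁ α₁ β₁ θ₁ = _ := e1
  have d1' : ellipse c₂ α₂ β₂ θ₂ = _ := d1
  rw [e1'] at h₁
  rw [d1'] at h₂
  have hβ₁ := hA₁.1
  have hα₁ := hA₁.2.1
  have hβ₂ := hA₂.1
  have hα₂ := hA₂.2.1
  have hn₁ : ‖(((α₁ - β₁) / (α₁ + β₁) : ℝ) : ℂ) * Complex.exp (2 * θ₁ * Complex.I)‖ < 1 := by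
    rw [e3, div_lt_one (by linarith)]
    linarith
  have hn₂ : ‖(((α₂ - β₂) / (α₂ + β₂) : ℝ) : ℂ) * Complex.exp (2 * θ₂ * Complex.I)‖ < 1 := by
    rw [d3, div_lt_one (by linarith)]
    linarith
  obtain ⟨a, b, c, q₁, q₂⟩ := hq
  refine NV1.main9 hk hk1 hΩo hΩb hΩc.isPreconnected hσ (c₁ := c₁) (r₁ := (α₁ + β₁) / 2) (c₂ := c₂) (r₂ := (α₂ + β₂) / 2)
    (by linarith) (by linarith) hn₁ hn₂ (by rw [← e2]; exact hA₁.2.2) (by rw [← d2]; exact hA₂.2.2)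
    ⟨a, b, c, fun w hw => ?_, fun w hw => ?_⟩ hg hg0 ⟨h₁.sob, h₁.eq⟩ ⟨h₂.sob, h₂.eq⟩ ht
  · have := (pts hβ₁ hα₁).1 q₁ w hw
    linarith
  · have := (pts hβ₂ hα₂).1 q₂ w hw
    linarith

/-- (1) for every `q > 0` there is `ε > 0` with: if `0 < |k - 1| < ε`, the ellipses with axis ratio at least `q` have global uniqueness
with one measurement;
(2) for every `κ > 1` there is `q < 1` with: for every `k ≠ 1` in `[1/κ, κ]` the ellipses with axis ratio at least `q` have global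
uniqueness with one measurement;
(3) for every `κ > 1` and `q > 0` there is `δ > 0` with: for every `k ≠ 1` in `[1/κ, κ]` two different ellipses with axis ratio at least
`q` which differ by at most `δ` (relative to their size) are distinguished by every measurement in every domain;
(4) for every `k ≠ 1` two ellipses are distinguished by every measurement in every domain if some vector field `a + b z + c z²` points out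
of the first one and into the second one, and such a field exists if the centers are far from each other in the sense of `Apart` (the
ellipses may overlap);
(5) for two different ellipses and `g ≠ 0` the conductivities with the same data have no accumulation point in `(0,∞)` -/
theorem result :
    (∀ q : ℝ, 0 < q → ∃ ε : ℝ, 0 < ε ∧ ∀ k : ℝ, 0 < k → k ≠ 1 → |k - 1| < ε → GlobalUniqueness q k) ∧
    (∀ κ : ℝ, 1 < κ → ∃ q : ℝ, 0 < q ∧ q < 1 ∧ ∀ k : ℝ, 1 / κ ≤ k → k ≤ κ → k ≠ 1 → GlobalUniqueness q k) ∧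
    (∀ κ : ℝ, 1 < κ → ∀ q : ℝ, 0 < q → ∃ δ : ℝ, 0 < δ ∧ ∀ k : ℝ, 1 / κ ≤ k → k ≤ κ → k ≠ 1 → LocalUniqueness q k δ) ∧
    (∀ k : ℝ, 0 < k → k ≠ 1 → ∀ Ω : Set ℂ, IsOpen Ω → Bornology.IsBounded Ω → IsConnected Ω → μH[1] (frontier Ω) < ⊤ →
      ∀ (c₁ c₂ : ℂ) (α₁ β₁ θ₁ α₂ β₂ θ₂ : ℝ), Adm Ω c₁ α₁ β₁ θ₁ → Adm Ω c₂ α₂ β₂ θ₂ →
      (∃ a b c : ℂ, Points 1 a b c c₁ α₁ β₁ θ₁ ∧ Points (-1) a b c c₂ α₂ β₂ θ₂) →
      ∀ g : ℂ → ℝ, MemLp g 2 (μH[1].restrict (frontier Ω)) → ¬ g =ᵐ[μH[1].restrict (frontier Ω)] 0 →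
        ¬ SameData Ω (ellipse c₁ α₁ β₁ θ₁) (ellipse c₂ α₂ β₂ θ₂) g k) ∧
    (∀ (c₁ c₂ : ℂ) (α₁ β₁ θ₁ α₂ β₂ θ₂ : ℝ), 0 < β₁ → β₁ ≤ α₁ → 0 < β₂ → β₂ ≤ α₂ → Apart c₁ α₁ β₁ c₂ α₂ β₂ →
      ∃ a b c : ℂ, Points 1 a b c c₁ α₁ β₁ θ₁ ∧ Points (-1) a b c c₂ α₂ β₂ θ₂) ∧
    (∀ Ω : Set ℂ, IsOpen Ω → Bornology.IsBounded Ω → IsConnected Ω → μH[1] (frontier Ω) < ⊤ → SmoothDense Ω → Poincare Ω →
      ∀ (c₁ c₂ : ℂ) (α₁ β₁ θ₁ α₂ β₂ θ₂ : ℝ), Adm Ω c₁ α₁ β₁ θ₁ → Adm Ω c₂ α₂ β₂ θ₂ →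
      ellipse c₁ α₁ β₁ θ₁ ≠ ellipse c₂ α₂ β₂ θ₂ →
      ∀ g : ℂ → ℝ, MemLp g 2 (μH[1].restrict (frontier Ω)) → ¬ g =ᵐ[μH[1].restrict (frontier Ω)] 0 →
      ∀ k₀ : ℝ, 0 < k₀ → ∃ δ : ℝ, 0 < δ ∧ ∀ k : ℝ, 0 < k → k ≠ k₀ → |k - k₀| < δ →
        ¬ SameData Ω (ellipse c₁ α₁ β₁ θ₁) (ellipse c₂ α₂ β₂ θ₂) g k) := by
  refine ⟨fun q hq => near hq, fun κ hκ => round hκ, fun κ hκ q hq => close hκ hq, fun k hk hk1 Ω hΩo hΩb hΩc hσ c₁ c₂ α₁ β₁ θ₁ α₂ β₂ θ₂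
    hA₁ hA₂ hq g hg hg0 => far hk hk1 hΩo hΩb hΩc hσ hA₁ hA₂ hq hg hg0,
    fun c₁ c₂ α₁ β₁ θ₁ α₂ β₂ θ₂ hβ₁ hα₁ hβ₂ hα₂ hap => apart_pts hβ₁ hα₁ hβ₂ hα₂ hap, ?_⟩
  intro Ω hΩo hΩb hΩc hσ hd hP c₁ c₂ α₁ β₁ θ₁ α₂ β₂ θ₂ hA₁ hA₂ hne g hg hg0 k₀ hk₀
  by_contra hcon
  push Not at hcon
  have hα₁ : 0 < α₁ := hA₁.1.trans_le hA₁.2.1
  have hα₂ : 0 < α₂ := hA₂.1.trans_le hA₂.2.1
  obtain ⟨ε, hε, hnear⟩ := near (q := min (β₁ / α₁) (β₂ / α₂)) (lt_min (div_pos hA₁.1 hα₁) (div_pos hA₂.1 hα₂))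
  obtain ⟨e1, -, -⟩ := ell_Dp c₁ hA₁.1 hA₁.2.1 θ₁
  obtain ⟨d1, -, -⟩ := ell_Dp c₂ hA₂.1 hA₂.2.1 θ₂
  have m1 : MeasurableSet (ellipse c₁ α₁ β₁ θ₁) := by
    have e1' : ellipse c₁ α₁ β₁ θ₁ = _ := e1
    rw [e1']
    exact (Dp_open _ _ _ _).measurableSet
  have m2 : MeasurableSet (ellipse c₂ α₂ β₂ θ₂) := by
    have d1' : ellipse c₂ α₂ β₂ θ₂ = _ := d1
    rw [d1']
    exact (Dp_open _ _ _ _).measurableSet
  have hall := AK1.same_all hΩo hΩb hΩc.nonempty hP (fun u G hs => ⟨hs.memG, hd u G hs⟩) m1 m2 hk₀ (fun δ hδ => by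
    obtain ⟨k, hk, hkk, hkδ, hs⟩ := hcon δ hδ
    exact ⟨k, hk, hkk, hkδ, same_iff.1 hs⟩)
  have hε2 : 0 < min ε 1 / 2 := by positivity
  have hk1 : (0 : ℝ) < 1 + min ε 1 / 2 := by positivity
  refine hne (hnear (1 + min ε 1 / 2) hk1 (by linarith) ?_ Ω hΩo hΩb hΩc hσ c₁ c₂ α₁ β₁ θ₁ α₂ β₂ θ₂ hA₁ hA₂ ?_ ?_ g hg hg0
    (same_iff.2 (hall _ hk1)))
  · rw [add_sub_cancel_left, abs_of_pos hε2]
    have := min_le_left ε 1
    linarith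
  · have := mul_le_mul_of_nonneg_right (min_le_left (β₁ / α₁) (β₂ / α₂)) hα₁.le
    rwa [div_mul_cancel₀ _ hα₁.ne'] at this
  · have := mul_le_mul_of_nonneg_right (min_le_right (β₁ / α₁) (β₂ / α₂)) hα₂.le
    rwa [div_mul_cancel₀ _ hα₂.ne'] at this

end H1OldWCv5
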